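import Pool.Agent.W236.TZ.Defs

/-!
# Assembly
-/

set_option autoImplicit false

open scoped Classical
open Finset

namespace Pool.Agent.W236.TZ

variable {n k : ℕ}

lemma mem_LL (μ : Fin (k + 1) → ℕ) : μ ∈ LL n k ↔ Vd n k μ := by
  rw [LL, Finset.mem_filter, Fintype.mem_piFinset]
  constructor
  · exact fun h => h.2
  · intro h
    refine ⟨fun i => ?_, h⟩
    rw [Finset.mem_range]
    have := h.1 i
    omega

lemma dn_up (μ : Fin (k + 1) → ℕ) (i : Fin (k + 1)) : dn (up μ i) i = μ := by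
  unfold dn up
  simp

lemma up_dn (μ : Fin (k + 1) → ℕ) (i : Fin (k + 1)) (h : 0 < μ i) : up (dn μ i) i = μ := by
  unfold dn up
  funext j
  by_cases hj : j = i
  · subst hj
    simp
    omega
  · simp [Function.update_of_ne hj]

lemma up_apply (μ : Fin (k + 1) → ℕ) (i : Fin (k + 1)) : up μ i i = μ i + 1 := by
  simp [up]

lemma sum_uni (g : (Fin (k + 1) → ℕ) → ℚ) :
    (∑ μ ∈ Finset.univ.filter (fun μ : Fin (k+1) → Fin (n+1) => Vd n k (fun i => (μ i : ℕ))),
      g (fun i => (μ i : ℕ))) = ∑ μ ∈ LL n k, g μ := by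
  refine Finset.sum_bij' (fun μ _ => fun i => (μ i : ℕ))
    (fun μ hμ => fun i => ⟨μ i, by
      have := ((mem_LL μ).1 hμ).1 i
      omega⟩) ?_ ?_ ?_ ?_ ?_
  · intro μ hμ
    rw [Finset.mem_filter] at hμ
    exact (mem_LL _).2 hμ.2
  · intro μ hμ
    rw [Finset.mem_filter]
    exact ⟨Finset.mem_univ _, (mem_LL μ).1 hμ⟩
  · intro μ _
    rfl
  · intro μ _
    rfl
  · intro μ _
    rfl

lemma card_uni :
    ((Finset.univ.filter
      (fun μ : Fin (k+1) → Fin (n+1) => Vd n k (fun i => (μ i : ℕ)))).card : ℚ) =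
      ((LL n k).card : ℚ) := by
  have := sum_uni (n := n) (k := k) (fun _ => 1)
  simpa using this

lemma sum_lam (hk : 2 * k < n) :
    ((∑ i : Fin (k + 1), (n - 2 * (i : ℕ)) : ℕ) : ℚ) = ((k : ℚ) + 1) * (n - k) := by
  have h : ∀ m : ℕ, 2 * m ≤ n + 1 →
      ((∑ i ∈ Finset.range m, (n - 2 * i) : ℕ) : ℚ) = (m : ℚ) * (n - m + 1) := by
    intro m
    induction m with
    | zero => intro _; simp
    | succ m ih =>
      intro hm
      rw [Finset.sum_range_succ, Nat.cast_add, ih (by omega), Nat.cast_sub (by omega)]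
      push_cast
      ring
  rw [Fin.sum_univ_eq_sum_range (fun i => n - 2 * i) (k + 1), h (k + 1) (by omega)]
  push_cast
  ring

/-- the weighted sum over all states, for any toggle symmetric weight -/
lemma main_sum (hK : S_K) (hk : 2 * k < n) (c : (Fin (k + 1) → ℕ) → ℚ)
    (hT : (∑ μ ∈ LL n k, c μ *
      ∑ i : Fin (k + 1), if Vd n k (up μ i) then Fw n i (μ i) else 0) =
      ∑ ν ∈ LL n k, c ν *
      ∑ i : Fin (k + 1), if 0 < ν i ∧ Vd n k (dn ν i) then Fw n i (ν i - 1) else 0) :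
    (∑ μ ∈ LL n k, c μ * (Dg n k μ : ℚ)) =
      ((n : ℚ) + 1) / 4 * (∑ μ ∈ LL n k, c μ) +
      (((k : ℚ) + 1) / 2 - ((n : ℚ) + 1) / 4) *
        ∑ μ ∈ (LL n k).filter (fun μ => 2 ≤ μ (Fin.last k)), c μ := by
  have h1 : ∀ μ ∈ LL n k, c μ * (Dg n k μ : ℚ) = ((n : ℚ) + 1) / 4 * c μ +
      (c μ * (∑ i : Fin (k + 1), if Vd n k (up μ i) then Fw n i (μ i) else 0) -
        c μ * (∑ i : Fin (k + 1), if 0 < μ i ∧ Vd n k (dn μ i) then Fw n i (μ i - 1) else 0)) +
      (((k : ℚ) + 1) / 2 - ((n : ℚ) + 1) / 4) * (if 2 ≤ μ (Fin.last k) then c μ else 0) := by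
    intro μ hμ
    have := hK n k hk μ ((mem_LL μ).1 hμ)
    have hD : (Dg n k μ : ℚ) = (∑ i : Fin (k + 1), if Vd n k (up μ i) then Fw n i (μ i) else 0) +
      (if 2 ≤ μ (Fin.last k) then Fw n (k + 1) 0 else 0) -
      (∑ i : Fin (k + 1), if 0 < μ i ∧ Vd n k (dn μ i) then Fw n i (μ i - 1) else 0) +
      ((n : ℚ) + 1) / 4 := by linarith
    rw [hD]
    have hF : Fw n (k + 1) 0 = (((k : ℚ) + 1) / 2 - ((n : ℚ) + 1) / 4) := by
      rw [Fw, if_pos rfl]; push_cast; ring
    rw [hF]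
    split_ifs <;> ring
  rw [Finset.sum_congr rfl h1, Finset.sum_add_distrib, Finset.sum_add_distrib,
    Finset.sum_sub_distrib, hT, sub_self, add_zero, ← Finset.mul_sum, ← Finset.mul_sum,
    Finset.sum_filter]

lemma ratio_choose (hk : 2 * k < n) :
    ((n : ℚ) + 1) * ((n.choose (k + 1) : ℚ) - (n.choose k : ℚ)) =
      ((n : ℚ) - 2 * k - 1) * ((n + 1).choose (k + 1) : ℚ) := by
  have h1 : ((n + 1 : ℕ) : ℚ) * (n.choose k : ℚ) = ((n + 1).choose (k + 1) : ℚ) * ((k + 1 : ℕ) : ℚ) := by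
    have := Nat.add_one_mul_choose_eq n k
    exact_mod_cast this
  have h2 : ((n + 1).choose (k + 1) : ℚ) = (n.choose k : ℚ) + (n.choose (k + 1) : ℚ) := by
    have := Nat.choose_succ_succ n k
    exact_mod_cast this
  push_cast at h1
  have h3 : (n.choose (k + 1) : ℚ) = ((n + 1).choose (k + 1) : ℚ) - (n.choose k : ℚ) := by
    rw [h2]; ring
  rw [h3]
  linear_combination (-2 : ℚ) * h1

/-- uniform average -/
lemma uniform (hK : S_K) (hU : S_UNI) (hC : S_CNT) (hk : 2 * k < n) :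
    (∑ μ ∈ LL n k, (Dg n k μ : ℚ)) / ((LL n k).card : ℚ) =
      ((k : ℚ) + 1) * (n - k) / ((n : ℚ) + 1) := by
  have h1 := main_sum hK hk (fun _ => 1) (by
    simp only [one_mul]
    exact hU n k (fun i a => Fw n i a))
  simp only [one_mul] at h1
  obtain ⟨c1, c2⟩ := hC n k hk
  have h3 := ratio_choose hk
  have hpos : (0 : ℚ) < ((n + 1).choose (k + 1) : ℚ) := by
    have := Nat.choose_pos (show k + 1 ≤ n + 1 by omega)
    exact_mod_cast this
  have hn : (0 : ℚ) < (n : ℚ) + 1 := by positivity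
  rw [h1]
  rw [Finset.sum_const, Finset.sum_const, nsmul_eq_mul, nsmul_eq_mul, mul_one, mul_one, c2, c1]
  rw [div_eq_div_iff hpos.ne' hn.ne']
  have h4 : ((n.choose (k + 1) : ℚ) - (n.choose k : ℚ)) =
      ((n : ℚ) - 2 * k - 1) * ((n + 1).choose (k + 1) : ℚ) / ((n : ℚ) + 1) := by
    rw [eq_div_iff hn.ne', mul_comm]; exact h3
  rw [h4]
  field_simp
  ring

lemma f_unique {f g : (Fin (k + 1) → ℕ) → ℚ} (hf : IsF n k f) (hg : IsF n k g) :
    ∀ ν, Vd n k ν → f ν = g ν := by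
  have : ∀ s : ℕ, ∀ ν, Vd n k ν → ∑ i, ν i = s → f ν = g ν := by
    intro s
    induction s with
    | zero =>
      intro ν _ h0
      have : ν = 0 := by
        funext i
        rw [Finset.sum_eq_zero_iff] at h0
        exact h0 i (Finset.mem_univ i)
      rw [this, hf.1, hg.1]
    | succ s ih =>
      intro ν hν hs
      have hne : ν ≠ 0 := by
        rintro rfl
        simp at hs
      rw [hf.2 ν hν hne, hg.2 ν hν hne]
      apply Finset.sum_congr rfl
      intro i _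
      split_ifs with h
      · apply ih _ h.2
        have h1 : ∑ j, up (dn ν i) i j = ∑ j, dn ν i j + 1 := by
          have : up (dn ν i) i = fun j => dn ν i j + (if j = i then 1 else 0) := by
            funext j
            by_cases hj : j = i
            · subst hj; simp [up]
            · simp [up, Function.update_of_ne hj, hj]
          rw [this, Finset.sum_add_distrib]
          simp
        rw [up_dn ν i h.1, hs] at h1
        omega
      · rfl
  intro ν hν
  exact this _ ν hν rfl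

lemma vd_lam (hk : 2 * k < n) : Vd n k (lam n k) := by
  refine ⟨fun i => le_rfl, fun i j hij => ?_⟩
  right
  have := j.2
  have h2 : (i : ℕ) < j := hij
  unfold lam
  omega

lemma gf_lam_pos (hk : 2 * k < n) : 0 < Gf (lam n k) := by
  unfold Gf
  apply mul_pos
  · apply mul_pos
    · exact_mod_cast Nat.factorial_pos _
    · apply Finset.prod_pos
      intro i _
      apply one_div_pos.2
      exact_mod_cast Nat.factorial_pos _
  · apply Finset.prod_pos
    intro i _
    apply Finset.prod_pos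
    intro j _
    split_ifs with h
    · have := j.2
      have h2 : (i : ℕ) < j := h.1
      have h3 : lam n k j < lam n k i := by unfold lam; omega
      have h4 : ((lam n k j : ℕ) : ℚ) < (lam n k i : ℕ) := by exact_mod_cast h3
      apply div_pos
      · linarith
      · have : (0 : ℚ) ≤ ((lam n k j : ℕ) : ℚ) := Nat.cast_nonneg _
        linarith
    · norm_num

lemma gg_lam (hk : 2 * k < n) : Gg (lam n k) =
    (((k : ℚ) + 1) * (n - k) + 1) * (((n : ℚ) - 2 * k - 1) / ((n : ℚ) + 1)) * Gf (lam n k) := by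
  unfold Gg
  have h1 : (∑ i, ((lam n k i : ℕ) : ℚ)) = ((k : ℚ) + 1) * (n - k) := by
    have := sum_lam hk
    push_cast at this
    unfold lam
    exact_mod_cast this
  have h2 : (∏ i : Fin (k + 1), ((((lam n k i : ℕ) : ℚ) - 1) / (((lam n k i : ℕ) : ℚ) + 1))) =
      ((n : ℚ) - 2 * k - 1) / ((n : ℚ) + 1) := by
    have h3 : ∀ m : ℕ, 2 * m ≤ n + 1 → (∏ i ∈ Finset.range m,
        ((((n - 2 * i : ℕ) : ℚ) - 1) / (((n - 2 * i : ℕ) : ℚ) + 1))) =
        ((n : ℚ) - 2 * m + 1) / ((n : ℚ) + 1) := by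
      intro m
      induction m with
      | zero =>
        intro _
        have : (n : ℚ) + 1 ≠ 0 := by positivity
        simp [this]
      | succ m ih =>
        intro hm
        rw [Finset.prod_range_succ, ih (by omega), Nat.cast_sub (by omega)]
        have h5 : (n : ℚ) + 1 ≠ 0 := by positivity
        have h6 : (n : ℚ) - 2 * m + 1 ≠ 0 := by
          have : (2 * (m : ℚ) + 2) ≤ n + 1 := by exact_mod_cast (show 2 * m + 2 ≤ n + 1 by omega)
          intro h
          linarith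
        push_cast
        field_simp
        ring
    have h4 := h3 (k + 1) (by omega)
    rw [← Fin.prod_univ_eq_prod_range
      (fun i => ((((n - 2 * i : ℕ) : ℚ) - 1) / (((n - 2 * i : ℕ) : ℚ) + 1))) (k + 1)] at h4
    unfold lam
    rw [h4]
    push_cast
    ring
  rw [h1, h2]

/-- the sum over the states with last part at least two -/
lemma z_sum (hGG : S_GG) (hk : 2 * k < n) (h : (Fin (k + 1) → ℕ) → ℚ) (hh : IsH n k h) :
    (∑ μ ∈ (LL n k).filter (fun μ => 2 ≤ μ (Fin.last k)), Gf μ * h μ) = Gg (lam n k) := by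
  set Z := (LL n k).filter (fun μ => 2 ≤ μ (Fin.last k)) with hZ
  have hmem : ∀ μ, μ ∈ Z ↔ Vd n k μ ∧ 2 ≤ μ (Fin.last k) := by
    intro μ
    rw [hZ, Finset.mem_filter, mem_LL]
  -- double sum
  have hds : (∑ μ ∈ Z, ∑ i : Fin (k + 1),
      (if Vd n k (dn μ i) ∧ 2 ≤ dn μ i (Fin.last k) then Gg (dn μ i) else 0) * h μ) =
      ∑ κ ∈ Z, ∑ i : Fin (k + 1), Gg κ * (if Vd n k (up κ i) then h (up κ i) else 0) := by
    rw [← Finset.sum_product', ← Finset.sum_product']
    have e1 : ∀ p ∈ Z ×ˢ (Finset.univ : Finset (Fin (k + 1))),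
        (if Vd n k (dn p.1 p.2) ∧ 2 ≤ dn p.1 p.2 (Fin.last k) then Gg (dn p.1 p.2) else 0) * h p.1 =
        if Vd n k (dn p.1 p.2) ∧ 2 ≤ dn p.1 p.2 (Fin.last k) then Gg (dn p.1 p.2) * h p.1 else 0 := by
      intro p _; split_ifs <;> ring
    have e2 : ∀ p ∈ Z ×ˢ (Finset.univ : Finset (Fin (k + 1))),
        Gg p.1 * (if Vd n k (up p.1 p.2) then h (up p.1 p.2) else 0) =
        if Vd n k (up p.1 p.2) then Gg p.1 * h (up p.1 p.2) else 0 := by
      intro p _; split_ifs <;> ring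
    rw [Finset.sum_congr rfl e1, Finset.sum_congr rfl e2, ← Finset.sum_filter, ← Finset.sum_filter]
    have hpos : ∀ μ : Fin (k + 1) → ℕ, Vd n k μ → 2 ≤ μ (Fin.last k) → ∀ i, 0 < μ i := by
      intro μ hμ h2 i
      rcases (Fin.le_last i).lt_or_eq with h | h
      · rcases hμ.2 i (Fin.last k) h with h' | h' <;> omega
      · rw [h]; omega
    refine Finset.sum_bij' (fun p _ => (dn p.1 p.2, p.2)) (fun p _ => (up p.1 p.2, p.2)) ?_ ?_ ?_ ?_ ?_
    · rintro ⟨μ, i⟩ hp
      simp only [Finset.mem_filter, Finset.mem_product, Finset.mem_univ, and_true, hmem] at hp ⊢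
      refine ⟨hp.2, ?_⟩
      rw [up_dn μ i (hpos μ hp.1.1 hp.1.2 i)]
      exact hp.1.1
    · rintro ⟨μ, i⟩ hp
      simp only [Finset.mem_filter, Finset.mem_product, Finset.mem_univ, and_true, hmem] at hp ⊢
      rw [dn_up]
      refine ⟨⟨hp.2, ?_⟩, hp.1.1, hp.1.2⟩
      unfold up
      by_cases hi : Fin.last k = i
      · subst hi; simp; omega
      · rw [Function.update_of_ne hi]; exact hp.1.2
    · rintro ⟨μ, i⟩ hp
      simp only [Finset.mem_filter, Finset.mem_product, Finset.mem_univ, and_true, hmem] at hp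
      simp only [up_dn μ i (hpos μ hp.1.1 hp.1.2 i)]
    · rintro ⟨μ, i⟩ _
      simp only [dn_up]
    · rintro ⟨μ, i⟩ hp
      simp only [Finset.mem_filter, Finset.mem_product, Finset.mem_univ, and_true, hmem] at hp
      simp only [up_dn μ i (hpos μ hp.1.1 hp.1.2 i)]
  have h1 : ∀ μ ∈ Z, Gf μ * h μ = Gg μ * h μ - ∑ i : Fin (k + 1),
      (if Vd n k (dn μ i) ∧ 2 ≤ dn μ i (Fin.last k) then Gg (dn μ i) else 0) * h μ := by
    intro μ hμ
    rw [hmem] at hμ
    rw [← Finset.sum_mul, ← sub_mul]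
    congr 1
    rw [hGG n k hk μ hμ.1 hμ.2]
    ring
  rw [Finset.sum_congr rfl h1, Finset.sum_sub_distrib, hds, ← Finset.sum_sub_distrib]
  have h2 : ∀ μ ∈ Z, Gg μ * h μ - ∑ i : Fin (k + 1),
      Gg μ * (if Vd n k (up μ i) then h (up μ i) else 0) = if μ = lam n k then Gg (lam n k) else 0 := by
    intro μ hμ
    rw [hmem] at hμ
    rw [← Finset.mul_sum, ← mul_sub]
    split_ifs with hl
    · have h3 : (∑ i : Fin (k + 1), if Vd n k (up μ i) then h (up μ i) else 0) = 0 := by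
        apply Finset.sum_eq_zero
        intro i _
        rw [if_neg]
        intro hv
        have := hv.1 i
        rw [up_apply, hl] at this
        unfold lam at this
        omega
      rw [h3, hl, hh.1]
      ring
    · rw [← hh.2 μ hμ.1 hl]
      ring
  rw [Finset.sum_congr rfl h2]
  by_cases hl : lam n k ∈ Z
  · rw [Finset.sum_ite_eq' Z (lam n k), if_pos hl]
  · rw [Finset.sum_eq_zero]
    · rw [gg_lam hk]
      have h4 : (n : ℚ) - 2 * k - 1 = 0 := by
        rw [hmem] at hl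
        push Not at hl
        have h5 := hl (vd_lam hk)
        unfold lam at h5
        simp only [Fin.val_last] at h5
        have h6 : n = 2 * k + 1 := by omega
        rw [h6]
        push_cast
        ring
      rw [h4]
      ring
    · intro μ hμ
      rw [if_neg]
      rintro rfl
      exact hl hμ

/-- chain average -/
lemma chains (hK : S_K) (hT : S_TOG) (hW : S_WORDS) (hG : S_G) (hGG : S_GG) (hk : 2 * k < n)
    (N : ℕ) (hN : N = ∑ i : Fin (k + 1), (n - 2 * (i : ℕ))) :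
    (∑ w ∈ Wd n k N, ∑ j ∈ Finset.range (N + 1), (Dg n k (Sh w j) : ℚ)) /
      (((Wd n k N).card : ℚ) * ((N : ℚ) + 1)) = ((k : ℚ) + 1) * (n - k) / ((n : ℚ) + 1) := by
  obtain ⟨f, h, hf, hh, hs, hc⟩ := hW n k N hk hN
  have hfG : ∀ ν, Vd n k ν → f ν = Gf ν := f_unique hf (hG n k hk)
  have hc' : ((Wd n k N).card : ℚ) = Gf (lam n k) := by
    rw [hc, hfG _ (vd_lam hk)]
  have hpos := gf_lam_pos hk
  have h1 := hs (fun μ => (Dg n k μ : ℚ))
  have h2 := hs (fun _ => 1)
  have h3 := main_sum hK hk (fun μ => f μ * h μ) (hT n k f h (fun i a => Fw n i a) hk hf hh)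
  have h4 : (∑ μ ∈ LL n k, f μ * h μ) = Gf (lam n k) * ((N : ℚ) + 1) := by
    have h5 : (∑ w ∈ Wd n k N, ∑ j ∈ Finset.range (N + 1), (1 : ℚ)) =
        Gf (lam n k) * ((N : ℚ) + 1) := by
      rw [Finset.sum_const, Finset.sum_const, Finset.card_range, nsmul_eq_mul, nsmul_eq_mul, hc']
      push_cast
      ring
    rw [h5] at h2
    rw [h2]
    apply Finset.sum_congr rfl
    intro μ _
    ring
  have h6 : (∑ μ ∈ (LL n k).filter (fun μ => 2 ≤ μ (Fin.last k)), f μ * h μ) =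
      Gg (lam n k) := by
    rw [← z_sum hGG hk h hh]
    apply Finset.sum_congr rfl
    intro μ hμ
    rw [Finset.mem_filter, mem_LL] at hμ
    rw [hfG μ hμ.1]
  rw [h1, h3, h4, h6, gg_lam hk, hc']
  have hNq : (N : ℚ) = ((k : ℚ) + 1) * (n - k) := by rw [hN]; exact sum_lam hk
  have hN1 : (0 : ℚ) < (N : ℚ) + 1 := by positivity
  have hn : (0 : ℚ) < (n : ℚ) + 1 := by positivity
  rw [← hNq]
  rw [div_eq_div_iff (mul_pos hpos hN1).ne' hn.ne']
  rw [hNq]
  field_simp
  ring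

theorem final (hK : S_K) (hU : S_UNI) (hT : S_TOG) (hW : S_WORDS) (hG : S_G) (hGG : S_GG)
    (hC : S_CNT) :
  ∀ (n k : ℕ), 1 ≤ n → 2 * k < n →
  ∀ (V : (Fin (k+1) → ℕ) → Prop),
    (∀ μ, V μ ↔ ((∀ i : Fin (k+1), μ i ≤ n - 2 * (i : ℕ)) ∧
        ∀ i j : Fin (k+1), i < j → μ j = 0 ∨ μ j < μ i)) →
  ∀ (D : (Fin (k+1) → ℕ) → ℕ),
    (∀ μ, D μ = (Finset.univ.filter
        (fun i : Fin (k+1) => 0 < μ i ∧ V (Function.update μ i (μ i - 1)))).card) →
  ∀ (N : ℕ), N = ∑ i : Fin (k+1), (n - 2 * (i : ℕ)) →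
  ∀ (S : (Fin N → Fin (k+1)) → ℕ → Fin (k+1) → ℕ),
    (∀ w j i, S w j i = (Finset.univ.filter
        (fun t : Fin N => (t : ℕ) < j ∧ w t = i)).card) →
  ((∑ μ ∈ Finset.univ.filter (fun μ : Fin (k+1) → Fin (n+1) => V (fun i => (μ i : ℕ))),
        (D (fun i => (μ i : ℕ)) : ℚ)) /
      ((Finset.univ.filter (fun μ : Fin (k+1) → Fin (n+1) => V (fun i => (μ i : ℕ)))).card : ℚ)
    =
    (∑ w ∈ Finset.univ.filter (fun w : Fin N → Fin (k+1) =>
          (∀ j : ℕ, j ≤ N → V (S w j)) ∧ ∀ i : Fin (k+1), S w N i = n - 2 * (i : ℕ)),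
        ∑ j ∈ Finset.range (N+1), (D (S w j) : ℚ)) /
      (((Finset.univ.filter (fun w : Fin N → Fin (k+1) =>
          (∀ j : ℕ, j ≤ N → V (S w j)) ∧ ∀ i : Fin (k+1), S w N i = n - 2 * (i : ℕ))).card : ℚ)
        * ((N : ℚ) + 1))
  ∧
  (∑ μ ∈ Finset.univ.filter (fun μ : Fin (k+1) → Fin (n+1) => V (fun i => (μ i : ℕ))),
        (D (fun i => (μ i : ℕ)) : ℚ)) /
      ((Finset.univ.filter (fun μ : Fin (k+1) → Fin (n+1) => V (fun i => (μ i : ℕ)))).card : ℚ)
    = (N : ℚ) / ((n : ℚ) + 1)) := by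
  intro n k hn hk V hV D hD N hN S hS
  have eV : V = Vd n k := by
    funext μ
    exact propext (hV μ)
  subst eV
  have eD : D = Dg n k := by
    funext μ
    rw [hD μ]
    rfl
  subst eD
  have eS : S = Sh := by
    funext w j i
    rw [hS w j i]
    rfl
  subst eS
  have h1 := uniform hK hU hC hk
  have h2 := chains hK hT hW hG hGG hk N hN
  have h3 := sum_uni (n := n) (k := k) (fun μ => (Dg n k μ : ℚ))
  have hNq : (N : ℚ) = ((k : ℚ) + 1) * (n - k) := by rw [hN]; exact sum_lam hk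
  rw [h3, card_uni]
  refine ⟨?_, ?_⟩
  · rw [h1]
    exact h2.symm
  · rw [h1, hNq]

end Pool.Agent.W236.TZ
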