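import Pool.Agent.W236.TZ.Defs

/-!
# Counting
-/

set_option autoImplicit false

open scoped Classical
open Finset

namespace Pool.Agent.W236.TZ

/-- valid vectors with `j` rows -/
def V0 (n j : ℕ) (μ : Fin j → ℕ) : Prop :=
  (∀ i : Fin j, μ i ≤ n - 2 * (i : ℕ)) ∧ ∀ a b : Fin j, a < b → μ b = 0 ∨ μ b < μ a

/-- valid vectors with `j` positive rows -/
def V1 (n j : ℕ) (μ : Fin j → ℕ) : Prop :=
  (∀ i : Fin j, 1 ≤ μ i ∧ μ i ≤ n - 2 * (i : ℕ)) ∧ ∀ a b : Fin j, a < b → μ b < μ a

/-- the finite set -/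
noncomputable def L0 (n j : ℕ) : Finset (Fin j → ℕ) :=
  (Fintype.piFinset fun _ : Fin j => Finset.range (n + 1)).filter (V0 n j)

/-- the finite set -/
noncomputable def L1 (n j : ℕ) : Finset (Fin j → ℕ) :=
  (Fintype.piFinset fun _ : Fin j => Finset.range (n + 1)).filter (V1 n j)

lemma mem_L0 {n j : ℕ} (μ : Fin j → ℕ) : μ ∈ L0 n j ↔ V0 n j μ := by
  rw [L0, Finset.mem_filter, Fintype.mem_piFinset]
  constructor
  · exact fun h => h.2
  · intro h
    refine ⟨fun i => ?_, h⟩
    rw [Finset.mem_range]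
    have := h.1 i
    omega

lemma mem_L1 {n j : ℕ} (μ : Fin j → ℕ) : μ ∈ L1 n j ↔ V1 n j μ := by
  rw [L1, Finset.mem_filter, Fintype.mem_piFinset]
  constructor
  · exact fun h => h.2
  · intro h
    refine ⟨fun i => ?_, h⟩
    rw [Finset.mem_range]
    have := (h.1 i).2
    omega

lemma V1_ge_last {n j : ℕ} {μ : Fin (j + 1) → ℕ} (h : V1 n (j + 1) μ) (i : Fin (j + 1)) :
    μ (Fin.last j) ≤ μ i := by
  rcases eq_or_ne i (Fin.last j) with e | e
  · rw [e]
  · exact (h.2 i (Fin.last j) (Fin.lt_last_iff_ne_last.2 e)).le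

lemma card_ge2 (n j : ℕ) :
    ((L1 (n + 1) (j + 1)).filter (fun μ => 2 ≤ μ (Fin.last j))).card = (L1 n (j + 1)).card := by
  refine Finset.card_bij' (fun μ _ => fun i => μ i - 1) (fun μ _ => fun i => μ i + 1)
    ?_ ?_ ?_ ?_
  · intro μ hμ
    rw [Finset.mem_filter, mem_L1] at hμ
    rw [mem_L1]
    refine ⟨fun i => ?_, fun a b hab => ?_⟩
    · have h1 := V1_ge_last hμ.1 i
      have h2 := hμ.1.1 i
      have h3 := hμ.2
      change 1 ≤ μ i - 1 ∧ μ i - 1 ≤ n - 2 * (i : ℕ)
      omega
    · have h1 := V1_ge_last hμ.1 b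
      have h2 := hμ.1.2 a b hab
      have h3 := hμ.2
      change μ b - 1 < μ a - 1
      omega
  · intro μ hμ
    rw [mem_L1] at hμ
    rw [Finset.mem_filter, mem_L1]
    refine ⟨⟨fun i => ?_, fun a b hab => ?_⟩, ?_⟩
    · have h2 := hμ.1 i
      change 1 ≤ μ i + 1 ∧ μ i + 1 ≤ n + 1 - 2 * (i : ℕ)
      omega
    · have h2 := hμ.2 a b hab
      change μ b + 1 < μ a + 1
      omega
    · have := (hμ.1 (Fin.last j)).1
      change 2 ≤ μ (Fin.last j) + 1
      omega
  · intro μ hμ
    rw [Finset.mem_filter, mem_L1] at hμ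
    funext i
    have := (hμ.1.1 i).1
    change μ i - 1 + 1 = μ i
    omega
  · intro μ _
    funext i
    change μ i + 1 - 1 = μ i
    omega

lemma card_eq1 (n j : ℕ) (hj : 2 * j ≤ n) :
    ((L1 (n + 1) (j + 1)).filter (fun μ => ¬ 2 ≤ μ (Fin.last j))).card = (L1 n j).card := by
  refine Finset.card_bij' (fun μ _ => fun i => μ (Fin.castSucc i) - 1)
    (fun μ _ => Fin.snoc (α := fun _ => ℕ) (fun i => μ i + 1) 1)
    ?_ ?_ ?_ ?_
  · intro μ hμ
    rw [Finset.mem_filter, mem_L1] at hμ
    rw [mem_L1]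
    have key : ∀ i : Fin j, 1 < μ (Fin.castSucc i) := by
      intro i
      have h1 := hμ.1.2 (Fin.castSucc i) (Fin.last j) (Fin.castSucc_lt_last i)
      have h2 := (hμ.1.1 (Fin.last j)).1
      omega
    refine ⟨fun i => ?_, fun a b hab => ?_⟩
    · have h2 := hμ.1.1 (Fin.castSucc i)
      have h3 := key i
      rw [Fin.val_castSucc] at h2
      change 1 ≤ μ (Fin.castSucc i) - 1 ∧ μ (Fin.castSucc i) - 1 ≤ n - 2 * (i : ℕ)
      omega
    · have h2 := hμ.1.2 (Fin.castSucc a) (Fin.castSucc b) (Fin.castSucc_lt_castSucc_iff.2 hab)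
      have h3 := key b
      change μ (Fin.castSucc b) - 1 < μ (Fin.castSucc a) - 1
      omega
  · intro μ hμ
    rw [mem_L1] at hμ
    rw [Finset.mem_filter, mem_L1]
    refine ⟨⟨fun i => ?_, fun a b hab => ?_⟩, ?_⟩
    · refine Fin.lastCases ?_ (fun i => ?_) i
      · rw [Fin.snoc_last, Fin.val_last]
        omega
      · rw [Fin.snoc_castSucc, Fin.val_castSucc]
        have := hμ.1 i
        omega
    · revert hab
      refine Fin.lastCases ?_ (fun b => ?_) b
      · refine Fin.lastCases ?_ (fun a => ?_) a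
        · intro h
          exact absurd h (lt_irrefl _)
        · intro _
          rw [Fin.snoc_last, Fin.snoc_castSucc]
          have := (hμ.1 a).1
          omega
      · refine Fin.lastCases ?_ (fun a => ?_) a
        · intro h
          exact absurd h (not_lt.2 (Fin.le_last _))
        · intro h
          rw [Fin.snoc_castSucc, Fin.snoc_castSucc]
          have := hμ.2 a b (Fin.castSucc_lt_castSucc_iff.1 h)
          omega
    · rw [Fin.snoc_last]
      omega
  · intro μ hμ
    rw [Finset.mem_filter, mem_L1] at hμ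
    funext i
    refine Fin.lastCases ?_ (fun i => ?_) i
    · rw [Fin.snoc_last]
      have := (hμ.1.1 (Fin.last j)).1
      omega
    · rw [Fin.snoc_castSucc]
      have := (hμ.1.1 (Fin.castSucc i)).1
      change μ (Fin.castSucc i) - 1 + 1 = μ (Fin.castSucc i)
      omega
  · intro μ _
    funext i
    change Fin.snoc (α := fun _ => ℕ) (fun i => μ i + 1) 1 (Fin.castSucc i) - 1 = μ i
    rw [Fin.snoc_castSucc]
    omega

lemma rec_L1 (n j : ℕ) (hj : 2 * j ≤ n) :
    (L1 (n + 1) (j + 1)).card = (L1 n (j + 1)).card + (L1 n j).card := by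
  rw [← card_ge2 n j, ← card_eq1 n j hj]
  exact (Finset.card_filter_add_card_filter_not _).symm

lemma L1_zero (n : ℕ) : (L1 n 0).card = 1 := by
  rw [Finset.card_eq_one]
  refine ⟨fun i => i.elim0, ?_⟩
  ext μ
  rw [mem_L1, Finset.mem_singleton]
  constructor
  · intro _
    funext i
    exact i.elim0
  · intro _
    exact ⟨fun i => i.elim0, fun i => i.elim0⟩

lemma L1_empty (n j : ℕ) (h : n ≤ 2 * j) : (L1 n (j + 1)).card = 0 := by
  rw [Finset.card_eq_zero, Finset.eq_empty_iff_forall_notMem]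
  intro μ hμ
  rw [mem_L1] at hμ
  have := hμ.1 (Fin.last j)
  rw [Fin.val_last] at this
  omega

lemma card_L1 (n : ℕ) : ∀ j : ℕ, 2 * j ≤ n →
    (L1 n (j + 1)).card + (n + 1).choose j = (n + 1).choose (j + 1) := by
  induction n with
  | zero =>
    intro j hj
    have h0 : j = 0 := by omega
    subst h0
    rw [L1_empty 0 0 (by omega)]
    simp
  | succ n ih =>
    intro j hj
    rcases Nat.lt_or_ge n (2 * j) with h | h
    · have h1 : n + 1 = 2 * j := by omega
      rw [L1_empty (n + 1) j (by omega), h1, zero_add]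
      exact (Nat.choose_symm_half j).symm
    · rw [rec_L1 n j h]
      have h2 := ih j h
      rcases Nat.eq_zero_or_pos j with h3 | h3
      · subst h3
        rw [L1_zero]
        simp only [Nat.choose_zero_right, zero_add, Nat.choose_one_right] at h2 ⊢
        omega
      · obtain ⟨j, rfl⟩ : ∃ i, j = i + 1 := ⟨j - 1, by omega⟩
        have h4 := ih j (by omega)
        have e1 : (n + 1 + 1).choose (j + 1) = (n + 1).choose j + (n + 1).choose (j + 1) :=
          Nat.choose_succ_succ _ _
        have e2 : (n + 1 + 1).choose (j + 1 + 1) =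
          (n + 1).choose (j + 1) + (n + 1).choose (j + 1 + 1) := Nat.choose_succ_succ _ _
        rw [e1, e2]
        omega

lemma card_L0_pos (n j : ℕ) :
    (L0 n (j + 1)).filter (fun μ => 0 < μ (Fin.last j)) = L1 n (j + 1) := by
  ext μ
  rw [Finset.mem_filter, mem_L0, mem_L1]
  constructor
  · rintro ⟨h1, h2⟩
    have key : ∀ i, 0 < μ i := by
      intro i
      rcases eq_or_ne i (Fin.last j) with e | e
      · rw [e]; exact h2
      · have := h1.2 i (Fin.last j) (Fin.lt_last_iff_ne_last.2 e)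
        omega
    refine ⟨fun i => ⟨key i, h1.1 i⟩, fun a b hab => ?_⟩
    have := h1.2 a b hab
    have := key b
    omega
  · rintro h
    exact ⟨⟨fun i => (h.1 i).2, fun a b hab => Or.inr (h.2 a b hab)⟩, (h.1 _).1⟩

lemma card_L0_zero (n j : ℕ) :
    ((L0 n (j + 1)).filter (fun μ => ¬ 0 < μ (Fin.last j))).card = (L0 n j).card := by
  refine Finset.card_bij' (fun μ _ => fun i => μ (Fin.castSucc i))
    (fun μ _ => Fin.snoc (α := fun _ => ℕ) μ 0) ?_ ?_ ?_ ?_
  · intro μ hμ
    rw [Finset.mem_filter, mem_L0] at hμ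
    rw [mem_L0]
    refine ⟨fun i => ?_, fun a b hab => ?_⟩
    · have h2 := hμ.1.1 (Fin.castSucc i)
      rwa [Fin.val_castSucc] at h2
    · exact hμ.1.2 (Fin.castSucc a) (Fin.castSucc b) (Fin.castSucc_lt_castSucc_iff.2 hab)
  · intro μ hμ
    rw [mem_L0] at hμ
    rw [Finset.mem_filter, mem_L0]
    refine ⟨⟨fun i => ?_, fun a b hab => ?_⟩, ?_⟩
    · refine Fin.lastCases ?_ (fun i => ?_) i
      · rw [Fin.snoc_last]
        omega
      · rw [Fin.snoc_castSucc, Fin.val_castSucc]
        exact hμ.1 i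
    · revert hab
      refine Fin.lastCases ?_ (fun b => ?_) b
      · intro _
        rw [Fin.snoc_last]
        exact Or.inl rfl
      · refine Fin.lastCases ?_ (fun a => ?_) a
        · intro h
          exact absurd h (not_lt.2 (Fin.le_last _))
        · intro h
          rw [Fin.snoc_castSucc, Fin.snoc_castSucc]
          exact hμ.2 a b (Fin.castSucc_lt_castSucc_iff.1 h)
    · rw [Fin.snoc_last]
      omega
  · intro μ hμ
    rw [Finset.mem_filter, mem_L0] at hμ
    funext i
    refine Fin.lastCases ?_ (fun i => ?_) i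
    · rw [Fin.snoc_last]
      omega
    · rw [Fin.snoc_castSucc]
  · intro μ _
    funext i
    exact Fin.snoc_castSucc _ _ _

lemma card_L0 (n : ℕ) : ∀ j : ℕ, 2 * j ≤ n + 2 → (L0 n j).card = (n + 1).choose j := by
  intro j
  induction j with
  | zero =>
    intro _
    rw [Nat.choose_zero_right, Finset.card_eq_one]
    refine ⟨fun i => i.elim0, ?_⟩
    ext μ
    rw [mem_L0, Finset.mem_singleton]
    constructor
    · intro _
      funext i
      exact i.elim0
    · intro _
      exact ⟨fun i => i.elim0, fun i => i.elim0⟩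
  | succ j ih =>
    intro hj
    rw [← Finset.card_filter_add_card_filter_not (s := L0 n (j + 1))
      (fun μ => 0 < μ (Fin.last j)), card_L0_pos, card_L0_zero, ih (by omega)]
    exact card_L1 n j (by omega)

theorem cnt : S_CNT := by
  intro n k hk
  have e : LL n k = L0 n (k + 1) := rfl
  refine ⟨?_, ?_⟩
  · rw [e]
    exact card_L0 n (k + 1) (by omega)
  · obtain ⟨n, rfl⟩ : ∃ m, n = m + 1 := ⟨n - 1, by omega⟩
    have e2 : (LL (n + 1) k).filter (fun μ => 2 ≤ μ (Fin.last k)) =
        (L1 (n + 1) (k + 1)).filter (fun μ => 2 ≤ μ (Fin.last k)) := by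
      rw [e, ← card_L0_pos, Finset.filter_filter]
      refine Finset.filter_congr fun μ _ => ?_
      omega
    rw [e2, card_ge2]
    have := card_L1 n k (by omega)
    have h2 : (((L1 n (k + 1)).card + (n + 1).choose k : ℕ) : ℚ) =
      ((n + 1).choose (k + 1) : ℕ) := by rw [this]
    push_cast at h2
    linarith

end Pool.Agent.W236.TZ
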