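import Pool.Agent.W236.TZ.Defs

/-!
# The key identity
-/

set_option autoImplicit false

open scoped Classical
open Finset

namespace Pool.Agent.W236.TZ

lemma main_ (n : ℕ) (m : ℕ → ℕ) (hm : ∀ i, m (i + 1) = 0 ∨ m (i + 1) < m i) (r : ℕ) :
    (∑ i ∈ range (r + 1), if (i = 0 ∨ m i + 1 < m (i - 1)) then Fw n i (m i) else 0) -
      (∑ i ∈ range r, if 0 < m i ∧ (m (i + 1) = 0 ∨ m (i + 1) + 1 < m i) then
        Fw n i (m i - 1) + 1 else 0) =
      if m r = 0 then -((n : ℚ) + 1) / 4 else ((r : ℚ) + m r - n) / 2 := by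
  induction r with
  | zero =>
    simp only [zero_add, Finset.sum_range_one, Finset.sum_range_zero, true_or, if_true, Fw,
      Nat.cast_zero]
    split_ifs <;> ring
  | succ r ih =>
    have e : ∀ a b c d : ℚ, a + b - (c + d) = (a - c) + (b - d) := by intros; ring
    rw [Finset.sum_range_succ _ (r + 1)]
    conv_lhs => rw [Finset.sum_range_succ (fun i => if 0 < m i ∧ (m (i + 1) = 0 ∨
      m (i + 1) + 1 < m i) then Fw n i (m i - 1) + 1 else 0) r]
    rw [e, ih]
    have h1 := hm r
    have h0 : ¬ (r + 1 = 0) := by omega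
    simp only [h0, false_or, Nat.add_sub_cancel]
    rcases Nat.eq_zero_or_pos (m r) with h2 | h2
    · have h3 : m (r + 1) = 0 := by omega
      simp [h2, h3]
    · rcases Nat.eq_zero_or_pos (m (r + 1)) with h3 | h3
      · rcases Nat.lt_or_ge 1 (m r) with h4 | h4
        · have h5 : m r ≠ 0 := by omega
          have h6 : m r - 1 ≠ 0 := by omega
          have h7 : ((m r - 1 : ℕ) : ℚ) = (m r : ℚ) - 1 := by
            rw [Nat.cast_sub (by omega)]; simp
          simp only [h3, h5, h2, h4, Fw, h6, h7, if_true, if_false, zero_add, true_or, true_and,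
            and_true]
          push_cast
          ring
        · have h5 : m r = 1 := by omega
          simp only [h3, h5, Fw, if_true, zero_add, true_or, Nat.lt_irrefl,
            if_false, one_ne_zero, Nat.sub_self, Nat.one_pos, and_true]
          push_cast
          ring
      · have h5 : m r ≠ 0 := by omega
        have h8 : m (r + 1) ≠ 0 := by omega
        rcases Nat.lt_or_ge (m (r + 1) + 1) (m r) with h4 | h4
        · have h6 : m r - 1 ≠ 0 := by omega
          have h7 : ((m r - 1 : ℕ) : ℚ) = (m r : ℚ) - 1 := by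
            rw [Nat.cast_sub (by omega)]; simp
          simp only [h5, h8, h2, h4, Fw, h6, h7, if_true, if_false, or_true, true_and]
          push_cast
          ring
        · have h6 : m r = m (r + 1) + 1 := by omega
          have h7 : ¬ (m (r + 1) + 1 < m r) := by omega
          simp only [h5, h8, h7, if_false, or_false, and_false]
          rw [h6]
          push_cast
          ring

variable {n k : ℕ}

/-- extension by zero -/
def ext (μ : Fin (k + 1) → ℕ) (i : ℕ) : ℕ := if h : i < k + 1 then μ ⟨i, h⟩ else 0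

lemma ext_val (μ : Fin (k + 1) → ℕ) (i : Fin (k + 1)) : ext μ i = μ i := by
  simp only [ext, i.2, dite_true]

lemma ext_ge (μ : Fin (k + 1) → ℕ) (i : ℕ) (h : k + 1 ≤ i) : ext μ i = 0 := by
  simp [ext, not_lt.2 h]

lemma ext_dec (μ : Fin (k + 1) → ℕ) (hμ : Vd n k μ) (i : ℕ) :
    ext μ (i + 1) = 0 ∨ ext μ (i + 1) < ext μ i := by
  rcases Nat.lt_or_ge (i + 1) (k + 1) with h | h
  · have h' : i < k + 1 := by omega
    have := hμ.2 ⟨i, h'⟩ ⟨i + 1, h⟩ (by simp [Fin.lt_def])
    simpa [ext, h, h'] using this
  · exact Or.inl (ext_ge μ _ h)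

lemma ext_dec' (μ : Fin (k + 1) → ℕ) (hμ : Vd n k μ) {i j : ℕ} (h : i < j) :
    ext μ j = 0 ∨ ext μ j < ext μ i := by
  rcases Nat.lt_or_ge j (k + 1) with hj | hj
  · have h' : i < k + 1 := by omega
    have := hμ.2 ⟨i, h'⟩ ⟨j, hj⟩ (by simpa [Fin.lt_def] using h)
    simpa [ext, hj, h'] using this
  · exact Or.inl (ext_ge μ _ hj)

lemma up_iff (μ : Fin (k + 1) → ℕ) (hμ : Vd n k μ) (i : Fin (k + 1)) :
    Vd n k (up μ i) ↔ μ i + 1 ≤ n - 2 * (i : ℕ) ∧
      ((i : ℕ) = 0 ∨ ext μ i + 1 < ext μ ((i : ℕ) - 1)) := by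
  constructor
  · intro h
    refine ⟨by simpa [up] using h.1 i, ?_⟩
    rcases Nat.eq_zero_or_pos (i : ℕ) with h0 | h0
    · exact Or.inl h0
    · right
      have hlt : (i : ℕ) - 1 < k + 1 := by have := i.2; omega
      have hne : (⟨(i : ℕ) - 1, hlt⟩ : Fin (k + 1)) ≠ i := by
        intro e
        have := congrArg Fin.val e
        simp at this
        omega
      have := h.2 ⟨(i : ℕ) - 1, hlt⟩ i (Fin.lt_def.2 (show (i : ℕ) - 1 < (i : ℕ) by omega))
      rw [up, Function.update_self, Function.update_of_ne hne] at this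
      rw [ext_val]
      have e2 : ext μ ((i : ℕ) - 1) = μ ⟨(i : ℕ) - 1, hlt⟩ := by simp [ext, hlt]
      rw [e2]
      omega
  · rintro ⟨h1, h2⟩
    constructor
    · intro j
      by_cases hj : j = i
      · subst hj; simpa [up] using h1
      · rw [up, Function.update_of_ne hj]; exact hμ.1 j
    · intro a b hab
      by_cases hb : b = i
      · subst hb
        right
        have ha : a ≠ b := ne_of_lt hab
        rw [up, Function.update_self, Function.update_of_ne ha]
        have hab' : (a : ℕ) < b := hab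
        rcases h2 with h2 | h2
        · omega
        · rcases Nat.eq_or_lt_of_le (show (a : ℕ) ≤ (b : ℕ) - 1 by omega) with e | e
          · rw [← e, ext_val, ext_val] at h2
            exact h2
          · have := ext_dec' μ hμ e
            rw [ext_val] at this
            rw [ext_val] at h2
            omega
      · by_cases ha : a = i
        · subst ha
          rw [up, Function.update_self, Function.update_of_ne hb]
          have := hμ.2 a b hab
          omega
        · rw [up, Function.update_of_ne hb, Function.update_of_ne ha]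
          exact hμ.2 a b hab

lemma dn_iff (μ : Fin (k + 1) → ℕ) (hμ : Vd n k μ) (i : Fin (k + 1)) (hi : 0 < μ i) :
    Vd n k (dn μ i) ↔ (ext μ ((i : ℕ) + 1) = 0 ∨ ext μ ((i : ℕ) + 1) + 1 < ext μ i) := by
  constructor
  · intro h
    rcases Nat.lt_or_ge ((i : ℕ) + 1) (k + 1) with hlt | hlt
    · have hne : (⟨(i : ℕ) + 1, hlt⟩ : Fin (k + 1)) ≠ i := by
        intro e
        have := congrArg Fin.val e
        simp at this
      have := h.2 i ⟨(i : ℕ) + 1, hlt⟩ (by rw [Fin.lt_def]; simp)
      rw [dn, Function.update_self, Function.update_of_ne hne] at this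
      rw [ext_val]
      have e2 : ext μ ((i : ℕ) + 1) = μ ⟨(i : ℕ) + 1, hlt⟩ := by simp [ext, hlt]
      rw [e2]
      omega
    · exact Or.inl (ext_ge μ _ hlt)
  · intro h
    constructor
    · intro j
      by_cases hj : j = i
      · subst hj
        have := hμ.1 j
        simp only [dn, Function.update_self]
        omega
      · rw [dn, Function.update_of_ne hj]; exact hμ.1 j
    · intro a b hab
      by_cases hb : b = i
      · subst hb
        have ha : a ≠ b := ne_of_lt hab
        rw [dn, Function.update_self, Function.update_of_ne ha]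
        have := hμ.2 a b hab
        omega
      · by_cases ha : a = i
        · subst ha
          rw [dn, Function.update_self, Function.update_of_ne hb]
          have hab' : (a : ℕ) < b := hab
          rw [ext_val] at h
          rcases Nat.eq_or_lt_of_le (show (a : ℕ) + 1 ≤ (b : ℕ) by omega) with e | e
          · rw [e, ext_val] at h
            omega
          · have := ext_dec' μ hμ e
            rw [ext_val] at this
            omega
        · rw [dn, Function.update_of_ne hb, Function.update_of_ne ha]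
          exact hμ.2 a b hab

theorem k_ : S_K := by
  intro n k hk μ hμ
  have H := main_ n (ext μ) (fun i => ext_dec μ hμ i) (k + 1)
  rw [if_pos (ext_ge μ (k + 1) le_rfl), Finset.sum_range_succ] at H
  have eA : (∑ i : Fin (k + 1), if Vd n k (up μ i) then Fw n i (μ i) else 0) =
      ∑ i ∈ range (k + 1), if (i = 0 ∨ ext μ i + 1 < ext μ (i - 1)) then Fw n i (ext μ i)
        else 0 := by
    rw [Finset.sum_range]
    refine Finset.sum_congr rfl fun i _ => ?_
    rw [ext_val]
    by_cases hb : μ i + 1 ≤ n - 2 * (i : ℕ)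
    · by_cases hc : ((i : ℕ) = 0 ∨ ext μ i + 1 < ext μ ((i : ℕ) - 1))
      · rw [if_pos ((up_iff μ hμ i).2 ⟨hb, hc⟩)]
        rw [ext_val] at hc
        rw [if_pos hc]
      · rw [if_neg (fun h => hc ((up_iff μ hμ i).1 h).2)]
        rw [ext_val] at hc
        rw [if_neg hc]
    · rw [if_neg (fun h => hb ((up_iff μ hμ i).1 h).1)]
      have h1 := hμ.1 i
      have h2 := i.2
      have h3 : μ i = n - 2 * (i : ℕ) := by omega
      have h4 : μ i ≠ 0 := by omega
      have h5 : Fw n i (μ i) = 0 := by
        rw [Fw, if_neg h4, h3, Nat.cast_sub (by omega)]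
        push_cast
        ring
      rw [h5]
      simp
  have eV : (if (k + 1 = 0 ∨ ext μ (k + 1) + 1 < ext μ (k + 1 - 1)) then
      Fw n (k + 1) (ext μ (k + 1)) else 0) =
      (if 2 ≤ μ (Fin.last k) then Fw n (k + 1) 0 else 0) := by
    rw [ext_ge μ (k + 1) le_rfl]
    have e : ext μ (k + 1 - 1) = μ (Fin.last k) := by
      have := ext_val μ (Fin.last k)
      simpa using this
    rw [e]
    have e2 : (k + 1 = 0 ∨ 0 + 1 < μ (Fin.last k)) ↔ 2 ≤ μ (Fin.last k) := by omega
    simp only [e2]
  have eR : (∑ i ∈ range (k + 1), if 0 < ext μ i ∧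
      (ext μ (i + 1) = 0 ∨ ext μ (i + 1) + 1 < ext μ i) then
        Fw n i (ext μ i - 1) + 1 else 0) =
      (∑ i : Fin (k + 1), if 0 < μ i ∧ Vd n k (dn μ i) then Fw n i (μ i - 1) else 0) +
        (Dg n k μ : ℚ) := by
    rw [Finset.sum_range, Dg, Finset.card_filter, Nat.cast_sum, ← Finset.sum_add_distrib]
    refine Finset.sum_congr rfl fun i _ => ?_
    rw [ext_val]
    by_cases hi : 0 < μ i
    · have := dn_iff μ hμ i hi
      rw [ext_val] at this
      by_cases hc : Vd n k (dn μ i)
      · rw [if_pos ⟨hi, this.1 hc⟩, if_pos ⟨hi, hc⟩, if_pos ⟨hi, hc⟩]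
        simp
      · rw [if_neg (fun h => hc (this.2 h.2)), if_neg (fun h => hc h.2), if_neg (fun h => hc h.2)]
        simp
    · rw [if_neg (fun h => hi h.1), if_neg (fun h => hi h.1), if_neg (fun h => hi h.1)]
      simp
  rw [eV, ← eA, eR] at H
  have e4 : -((n : ℚ) + 1) / 4 = - (((n : ℚ) + 1) / 4) := by ring
  rw [e4] at H
  linarith

end Pool.Agent.W236.TZ
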