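import Mathlib

/-!
# Strict partitions inside a trapezoid: definitions and statements of the parts

A strict partition inside `(n, n-2, …, n-2k)` is a vector `μ : Fin (k+1) → ℕ` (padded by zeros).
-/

set_option autoImplicit false

open scoped Classical
open Finset

namespace Pool.Agent.W236.TZ

/-- valid states -/
def Vd (n k : ℕ) (μ : Fin (k + 1) → ℕ) : Prop :=
  (∀ i : Fin (k + 1), μ i ≤ n - 2 * (i : ℕ)) ∧
    ∀ i j : Fin (k + 1), i < j → μ j = 0 ∨ μ j < μ i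

/-- add a box in row `i` -/
def up {k : ℕ} (μ : Fin (k + 1) → ℕ) (i : Fin (k + 1)) : Fin (k + 1) → ℕ :=
  Function.update μ i (μ i + 1)

/-- remove a box in row `i` -/
def dn {k : ℕ} (μ : Fin (k + 1) → ℕ) (i : Fin (k + 1)) : Fin (k + 1) → ℕ :=
  Function.update μ i (μ i - 1)

/-- the finite set of valid states -/
noncomputable def LL (n k : ℕ) : Finset (Fin (k + 1) → ℕ) :=
  (Fintype.piFinset fun _ : Fin (k + 1) => Finset.range (n + 1)).filter (Vd n k)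

/-- the trapezoid itself -/
def lam (n k : ℕ) : Fin (k + 1) → ℕ := fun i => n - 2 * (i : ℕ)

/-- down-degree -/
noncomputable def Dg (n k : ℕ) (μ : Fin (k + 1) → ℕ) : ℕ :=
  (Finset.univ.filter (fun i : Fin (k + 1) => 0 < μ i ∧ Vd n k (dn μ i))).card

/-- the weight of the box added to a row `i` of length `a` -/
noncomputable def Fw (n i a : ℕ) : ℚ :=
  if a = 0 then (i : ℚ) / 2 - ((n : ℚ) + 1) / 4 else (2 * (i : ℚ) + a - n) / 2

/-- (K) the key identity -/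
def S_K : Prop := ∀ (n k : ℕ), 2 * k < n → ∀ μ : Fin (k + 1) → ℕ, Vd n k μ →
  (∑ i : Fin (k + 1), if Vd n k (up μ i) then Fw n i (μ i) else 0) +
      (if 2 ≤ μ (Fin.last k) then Fw n (k + 1) 0 else 0) -
      (∑ i : Fin (k + 1), if 0 < μ i ∧ Vd n k (dn μ i) then Fw n i (μ i - 1) else 0) =
    (Dg n k μ : ℚ) - ((n : ℚ) + 1) / 4

/-- (UNI) the uniform distribution is toggle symmetric -/
def S_UNI : Prop := ∀ (n k : ℕ) (F : ℕ → ℕ → ℚ),
  (∑ μ ∈ LL n k, ∑ i : Fin (k + 1), if Vd n k (up μ i) then F i (μ i) else 0) =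
    ∑ ν ∈ LL n k, ∑ i : Fin (k + 1), if 0 < ν i ∧ Vd n k (dn ν i) then F i (ν i - 1) else 0

/-- `f` counts the chains from below -/
def IsF (n k : ℕ) (f : (Fin (k + 1) → ℕ) → ℚ) : Prop :=
  f 0 = 1 ∧ ∀ ν, Vd n k ν → ν ≠ 0 →
    f ν = ∑ i : Fin (k + 1), if 0 < ν i ∧ Vd n k (dn ν i) then f (dn ν i) else 0

/-- `h` counts the chains from above -/
def IsH (n k : ℕ) (h : (Fin (k + 1) → ℕ) → ℚ) : Prop :=
  h (lam n k) = 1 ∧ ∀ μ, Vd n k μ → μ ≠ lam n k →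
    h μ = ∑ i : Fin (k + 1), if Vd n k (up μ i) then h (up μ i) else 0

/-- (TOG) the chain distribution is toggle symmetric -/
def S_TOG : Prop := ∀ (n k : ℕ) (f h : (Fin (k + 1) → ℕ) → ℚ) (F : ℕ → ℕ → ℚ), 2 * k < n →
  IsF n k f → IsH n k h →
  (∑ μ ∈ LL n k, f μ * h μ *
      ∑ i : Fin (k + 1), if Vd n k (up μ i) then F i (μ i) else 0) =
    ∑ ν ∈ LL n k, f ν * h ν *
      ∑ i : Fin (k + 1), if 0 < ν i ∧ Vd n k (dn ν i) then F i (ν i - 1) else 0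

/-- shape after `j` steps of the word `w` -/
noncomputable def Sh {k N : ℕ} (w : Fin N → Fin (k + 1)) (j : ℕ) : Fin (k + 1) → ℕ :=
  fun i => (Finset.univ.filter (fun t : Fin N => (t : ℕ) < j ∧ w t = i)).card

/-- the words of the maximal chains -/
noncomputable def Wd (n k N : ℕ) : Finset (Fin N → Fin (k + 1)) :=
  Finset.univ.filter (fun w : Fin N → Fin (k + 1) =>
    (∀ j : ℕ, j ≤ N → Vd n k (Sh w j)) ∧ ∀ i : Fin (k + 1), Sh w N i = n - 2 * (i : ℕ))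

/-- (WORDS) sums over maximal chains in terms of `f` and `h` -/
def S_WORDS : Prop := ∀ (n k N : ℕ), 2 * k < n → N = ∑ i : Fin (k + 1), (n - 2 * (i : ℕ)) →
  ∃ f h : (Fin (k + 1) → ℕ) → ℚ, IsF n k f ∧ IsH n k h ∧
    (∀ g : (Fin (k + 1) → ℕ) → ℚ,
      (∑ w ∈ Wd n k N, ∑ j ∈ Finset.range (N + 1), g (Sh w j)) =
        ∑ μ ∈ LL n k, f μ * h μ * g μ) ∧
    ((Wd n k N).card : ℚ) = f (lam n k)

/-- (LAG) an identity of Lagrange interpolation -/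
def S_LAG : Prop := ∀ (ι : Type) [DecidableEq ι] (s : Finset ι) (x : ι → ℚ),
  (∀ i ∈ s, 1 ≤ x i) → (∀ i ∈ s, ∀ j ∈ s, i ≠ j → x i ≠ x j) →
  (∑ i ∈ s, x i * ∏ j ∈ s.erase i,
    ((x i - 1 - x j) * (x i + x j)) / ((x i - 1 + x j) * (x i - x j))) = ∑ i ∈ s, x i

/-- product formula -/
noncomputable def Gf {k : ℕ} (μ : Fin (k + 1) → ℕ) : ℚ :=
  ((∑ i, μ i).factorial : ℚ) * (∏ i, (1 / ((μ i).factorial : ℚ))) *
    ∏ i : Fin (k + 1), ∏ j : Fin (k + 1),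
      if i < j ∧ μ j ≠ 0 then ((μ i : ℚ) - μ j) / ((μ i : ℚ) + μ j) else 1

/-- product formula for `μ` together with a part `1` -/
noncomputable def Gg {k : ℕ} (μ : Fin (k + 1) → ℕ) : ℚ :=
  ((∑ i, (μ i : ℚ)) + 1) * (∏ i, (((μ i : ℚ) - 1) / ((μ i : ℚ) + 1))) * Gf μ

/-- (G) the product formula satisfies the recursion -/
def S_G : Prop := ∀ (n k : ℕ), 2 * k < n → IsF n k (Gf (k := k))

/-- (GG) recursion for `Gg` -/
def S_GG : Prop := ∀ (n k : ℕ), 2 * k < n → ∀ ν : Fin (k + 1) → ℕ, Vd n k ν →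
  2 ≤ ν (Fin.last k) →
  Gg ν = Gf ν + ∑ i : Fin (k + 1),
    if Vd n k (dn ν i) ∧ 2 ≤ dn ν i (Fin.last k) then Gg (dn ν i) else 0

/-- (CNT) counting -/
def S_CNT : Prop := ∀ (n k : ℕ), 2 * k < n →
  (LL n k).card = (n + 1).choose (k + 1) ∧
  (((LL n k).filter (fun μ => 2 ≤ μ (Fin.last k))).card : ℚ) =
    (n.choose (k + 1) : ℚ) - (n.choose k : ℚ)

end Pool.Agent.W236.TZ
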